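import Mathlib

/-!
# Tournaments in which every triple has at least `L` common dominators

Let `L ≥ 4`.  We show that a tournament on `8 L + 11` vertices has a triple with at most `L - 1`
common dominators.

Write `D(i)`, `D(i, j)`, `D(i, j, k)` for the sets of common dominators.  If all `|D(i, j, k)| ≥ L`
then all `|D(i, j)| ≥ 2 L + 1` and all `|D(i)| ≥ 4 L + 3`.  Put `e(y) = |D(y)| - (4 L + 5)`.

* Local step: let `|D(i, j)| = 2 L + 1`.  Every vertex dominates at most `L + 1` vertices of
  `D(i, j)`, so counting the triples inside `D(i, j)` gives `|D(y, u)| ≥ 2 L + 2` for all distinct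
  `y, u` in `D(i, j)`.  Hence `e(y) ≥ 0` for `y` in `D(i, j)`, and the sum of `e` over `D(i, j)` is
  at least two.
* Global step: `∑_j (|D(i, j)| - (2 L + 2)) = (4 L + 4) e(i) - ∑_{y → i} e(y)`, and this is used to
  show that no vertex has `e(i) = -2` and then that no vertex has `e(i) = -1`.  So the tournament is
  regular, there is no pair with `|D(i, j)| = 2 L + 1`, and all `|D(i, j)|` are equal to `2 L + 2`.
* Final step: let `F = |D(T)|` and let `N` be the number of vertices dominated by `T`.  For a triple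
  `F + N` is `2 L + 1` or `2 L + 2`, so a certain polynomial `F^3 - N^3 - (6 L + 6) F^2 - ...` is
  nonnegative as `F ≥ L`.  But the sum over all triples is negative, since the sums of `F^3` and of
  `N^3` agree.
-/

set_option linter.unusedSectionVars false
set_option linter.unnecessarySeqFocus false

namespace Pool.Agent.Helper15.FTL

open Finset

section core

variable {V : Type} [Fintype V] [DecidableEq V] {A : V → V → ℤ} {L : ℤ}

/-- the matrix of a tournament -/
structure Tn (A : V → V → ℤ) : Prop where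
  zo : ∀ x y, A x y = 0 ∨ A x y = 1
  irr : ∀ x, A x x = 0
  tot : ∀ x y, x ≠ y → A x y + A y x = 1

/-- number of dominators -/
def d1 (A : V → V → ℤ) (a : V) : ℤ := ∑ x, A x a

/-- number of common dominators -/
def d2 (A : V → V → ℤ) (a b : V) : ℤ := ∑ x, A x a * A x b

/-- number of common dominators -/
def d3 (A : V → V → ℤ) (a b c : V) : ℤ := ∑ x, A x a * A x b * A x c

/-- every triple has at least `L` common dominators -/
def T3 (A : V → V → ℤ) (L : ℤ) : Prop := ∀ a b c, a ≠ b → a ≠ c → b ≠ c → L ≤ d3 A a b c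

lemma Tn.sq (hA : Tn A) (x y : V) : A x y * A x y = A x y := by
  rcases hA.zo x y with h | h <;> rw [h] <;> norm_num

lemma Tn.nn (hA : Tn A) (x y : V) : 0 ≤ A x y := by
  rcases hA.zo x y with h | h <;> rw [h] <;> norm_num

lemma Tn.le1 (hA : Tn A) (x y : V) : A x y ≤ 1 := by
  rcases hA.zo x y with h | h <;> rw [h] <;> norm_num

lemma Tn.ne (hA : Tn A) {x y : V} (h : A x y = 1) : x ≠ y := by
  rintro rfl
  rw [hA.irr] at h
  exact absurd h (by norm_num)

lemma d2_self (hA : Tn A) (a : V) : d2 A a a = d1 A a := by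
  unfold d2 d1
  exact sum_congr rfl fun x _ => hA.sq x a

lemma d2_comm (a b : V) : d2 A a b = d2 A b a := by
  unfold d2
  exact sum_congr rfl fun x _ => mul_comm _ _

lemma d3_left (hA : Tn A) (a b : V) : d3 A a b a = d2 A a b := by
  unfold d3 d2
  refine sum_congr rfl fun x _ => ?_
  rcases hA.zo x a with h | h <;> rw [h] <;> ring

lemma d3_right (hA : Tn A) (a b : V) : d3 A a b b = d2 A a b := by
  unfold d3 d2
  refine sum_congr rfl fun x _ => ?_
  rcases hA.zo x b with h | h <;> rw [h] <;> ring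

/-- counting the arcs inside a set with indicator `w` -/
lemma quad (hA : Tn A) {w : V → ℤ} (hw : ∀ x, w x = 0 ∨ w x = 1) :
    2 * ∑ v, w v * ∑ x, w x * A x v = (∑ x, w x) * (∑ x, w x - 1) := by
  have h1 : ∑ v, w v * ∑ x, w x * A x v = ∑ v, ∑ x, w v * w x * A x v := by
    refine sum_congr rfl fun v _ => ?_
    rw [mul_sum]
    refine sum_congr rfl fun x _ => ?_
    ring
  have h2 : ∑ v, ∑ x, w v * w x * A x v = ∑ v, ∑ x, w v * w x * A v x := by
    rw [sum_comm]
    refine sum_congr rfl fun v _ => sum_congr rfl fun x _ => ?_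
    ring
  have h3 : ∀ v x, w v * w x * A x v + w v * w x * A v x =
      w v * w x - (if v = x then w v else 0) := by
    intro v x
    by_cases h : v = x
    · subst h
      rw [if_pos rfl, hA.irr]
      rcases hw v with h | h <;> rw [h] <;> ring
    · rw [if_neg h, ← mul_add, add_comm, hA.tot v x h]
      ring
  have h4 : 2 * ∑ v, w v * ∑ x, w x * A x v =
      ∑ v, ∑ x, (w v * w x * A x v + w v * w x * A v x) := by
    simp only [sum_add_distrib]
    rw [← h2, h1]
    ring
  rw [h4]
  simp only [h3, sum_sub_distrib, sum_ite_eq, mem_univ, if_true, ← mul_sum, ← sum_mul]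
  ring

/-- in-degree and out-degree inside a set with indicator `w` -/
lemma inout (hA : Tn A) (w : V → ℤ) (x : V) :
    ∑ t, w t * A x t + ∑ t, w t * A t x = ∑ t, w t - w x := by
  have h : ∀ t, w t * A x t + w t * A t x = w t - (if t = x then w x else 0) := by
    intro t
    by_cases h : t = x
    · subst h
      rw [if_pos rfl, hA.irr]
      ring
    · rw [if_neg h, ← mul_add, add_comm, hA.tot t x h]
      ring
  rw [← sum_add_distrib]
  simp only [h, sum_sub_distrib, sum_ite_eq', mem_univ, if_true]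

lemma sum_le_one {f : V → ℤ} (h01 : ∀ v, f v = 0 ∨ f v = 1)
    (h : ∀ u v, f u = 1 → f v = 1 → u = v) : ∑ v, f v ≤ 1 := by
  by_cases hex : ∃ u, f u = 1
  · obtain ⟨u, hu⟩ := hex
    have h1 : ∀ v, f v = if v = u then 1 else 0 := by
      intro v
      by_cases hv : v = u
      · rw [if_pos hv, hv, hu]
      · rw [if_neg hv]
        rcases h01 v with h2 | h2
        · exact h2
        · exact absurd (h v u h2 hu) hv
    simp [h1]
  · push Not at hex
    have h1 : ∀ v, f v = 0 := fun v => (h01 v).resolve_right (hex v)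
    simp [h1]

lemma zero_of_sum {f : V → ℤ} (h0 : ∀ v, 0 ≤ f v) (hs : ∑ v, f v ≤ 0) (v : V) : f v = 0 := by
  have h1 : ∑ v, f v = 0 := le_antisymm hs (sum_nonneg fun v _ => h0 v)
  exact (sum_eq_zero_iff_of_nonneg fun v _ => h0 v).1 h1 v (mem_univ v)

lemma sum_one : ∑ _x : V, (1 : ℤ) = (Fintype.card V : ℤ) := by
  rw [sum_const, card_univ, nsmul_eq_mul, mul_one]

lemma sum_cst (c : ℤ) : ∑ _x : V, c = (Fintype.card V : ℤ) * c := by
  rw [sum_const, card_univ, nsmul_eq_mul]

/-! ### pairs and single vertices -/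

lemma d2_quad (hA : Tn A) (i j : V) :
    2 * ∑ v, A v i * A v j * d3 A i j v = d2 A i j * (d2 A i j - 1) := by
  have h := quad hA (w := fun x => A x i * A x j) (fun x => by
    rcases hA.zo x i with h | h <;> rcases hA.zo x j with h' | h' <;> simp [h, h'])
  exact h

lemma d1_quad (hA : Tn A) (i : V) :
    2 * ∑ v, A v i * d2 A i v = d1 A i * (d1 A i - 1) :=
  quad hA (w := fun x => A x i) (fun x => hA.zo x i)

lemma d2_term (hA : Tn A) (hT : T3 A L) {i j : V} (hij : i ≠ j) (v : V) :
    0 ≤ A v i * A v j * (d3 A i j v - L) := by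
  rcases hA.zo v i with h | h
  · simp [h]
  rcases hA.zo v j with h' | h'
  · simp [h']
  rw [h, h']
  have := hT i j v hij (hA.ne h).symm (hA.ne h').symm
  linarith

lemma d2_sum (i j : V) : ∑ v, A v i * A v j * (d3 A i j v - L) =
      ∑ v, A v i * A v j * d3 A i j v - L * d2 A i j := by
  unfold d2
  rw [mul_sum, ← sum_sub_distrib]
  exact sum_congr rfl fun v _ => by ring

lemma d2_ge (hA : Tn A) (hL : 4 ≤ L) (hT : T3 A L) (hV : (Fintype.card V : ℤ) = 8 * L + 11) {i j : V}
    (hij : i ≠ j) : 2 * L + 1 ≤ d2 A i j := by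
  have h1 : 0 ≤ ∑ v, A v i * A v j * (d3 A i j v - L) :=
    sum_nonneg fun v _ => d2_term hA hT hij v
  have h2 := d2_quad hA i j
  have h3 := d2_sum (A := A) (L := L) i j
  obtain ⟨c, hc⟩ : ∃ c, c ∉ ({i, j} : Finset V) := by
    by_contra hcon
    push Not at hcon
    have h4 : (univ : Finset V) ⊆ {i, j} := fun x _ => hcon x
    have h5 := card_le_card h4
    rw [card_univ, card_pair hij] at h5
    have h6 : (Fintype.card V : ℤ) ≤ 2 := by exact_mod_cast h5
    linarith
  have hci : i ≠ c := by
    rintro rfl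
    exact hc (by simp)
  have hcj : j ≠ c := by
    rintro rfl
    exact hc (by simp)
  have h4 : d3 A i j c ≤ d2 A i j := by
    unfold d3 d2
    refine sum_le_sum fun x _ => ?_
    have := mul_nonneg (hA.nn x i) (hA.nn x j)
    have h6 := hA.le1 x c
    nlinarith
  have h5 := hT i j c hij hci hcj
  have h6 : d2 A i j * (2 * L) ≤ d2 A i j * (d2 A i j - 1) := by linarith
  have h7 := le_of_mul_le_mul_left h6 (by linarith)
  linarith

lemma d1_term (hA : Tn A) (hL : 4 ≤ L) (hT : T3 A L) (hV : (Fintype.card V : ℤ) = 8 * L + 11)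
    (i v : V) : 0 ≤ A v i * (d2 A i v - (2 * L + 1)) := by
  rcases hA.zo v i with h | h
  · simp [h]
  rw [h]
  have := d2_ge hA hL hT hV (hA.ne h).symm
  linarith

lemma d1_sum (i : V) : ∑ v, A v i * (d2 A i v - (2 * L + 1)) =
      ∑ v, A v i * d2 A i v - (2 * L + 1) * d1 A i := by
  unfold d1
  rw [mul_sum, ← sum_sub_distrib]
  exact sum_congr rfl fun v _ => by ring

lemma d1_ge (hA : Tn A) (hL : 4 ≤ L) (hT : T3 A L) (hV : (Fintype.card V : ℤ) = 8 * L + 11) (i : V) :
    4 * L + 3 ≤ d1 A i := by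
  have h1 : 0 ≤ ∑ v, A v i * (d2 A i v - (2 * L + 1)) :=
    sum_nonneg fun v _ => d1_term hA hL hT hV i v
  have h2 := d1_quad hA i
  have h3 := d1_sum (A := A) (L := L) i
  obtain ⟨c, hc⟩ : ∃ c, c ≠ i := by
    by_contra hcon
    push Not at hcon
    have h4 : (univ : Finset V) ⊆ {i} := fun x _ => by simp [hcon x]
    have h5 := card_le_card h4
    rw [card_univ, card_singleton] at h5
    have h6 : (Fintype.card V : ℤ) ≤ 1 := by exact_mod_cast h5
    linarith
  have h4 : d2 A i c ≤ d1 A i := by
    unfold d1 d2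
    refine sum_le_sum fun x _ => ?_
    have := hA.nn x i
    have h6 := hA.le1 x c
    nlinarith
  have h5 := d2_ge hA hL hT hV hc.symm
  have h6 : d1 A i * (4 * L + 2) ≤ d1 A i * (d1 A i - 1) := by linarith
  have h7 := le_of_mul_le_mul_left h6 (by linarith)
  linarith

/-! ### pairs with `2 L + 1` common dominators -/

/-- the number of common dominators of `i` and `j` dominated by `x` -/
def bb (A : V → V → ℤ) (i j x : V) : ℤ := ∑ t, A t i * A t j * A x t

lemma bb_eq (hA : Tn A) {i j : V} (h11 : d2 A i j = 2 * L + 1) (x : V) :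
    bb A i j x = 2 * L + 1 - A x i * A x j - d3 A i j x := by
  have h := inout hA (fun t => A t i * A t j) x
  have h1 : ∑ t, A t i * A t j = 2 * L + 1 := h11
  rw [h1] at h
  unfold bb d3
  linarith

/-- a dominator of such a pair dominates `L` of the `2 L + 1` vertices -/
lemma d3_in (hA : Tn A) (hT : T3 A L) {i j : V} (hij : i ≠ j) (h11 : d2 A i j = 2 * L + 1) {v : V}
    (hi : A v i = 1) (hj : A v j = 1) : d3 A i j v = L := by
  have h2 := d2_quad hA i j
  have h3 := d2_sum (A := A) (L := L) i j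
  rw [h11] at h2 h3
  have h4 := zero_of_sum (d2_term hA hT hij) (by linarith) v
  rw [hi, hj] at h4
  linarith

lemma bb_in (hA : Tn A) (hT : T3 A L) {i j : V} (hij : i ≠ j) (h11 : d2 A i j = 2 * L + 1) {v : V}
    (hi : A v i = 1) (hj : A v j = 1) : bb A i j v = L := by
  rw [bb_eq hA h11, d3_in hA hT hij h11 hi hj, hi, hj]
  ring

lemma bb_le (hA : Tn A) (hL : 4 ≤ L) (hT : T3 A L) {i j : V} (hij : i ≠ j)
    (h11 : d2 A i j = 2 * L + 1) (x : V) : bb A i j x ≤ L + 1 - A x i * A x j := by
  rcases hA.zo x i with h | h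
  · by_cases hxi : x = i
    · subst hxi
      rw [bb_eq hA h11, d3_left hA, h11, h]
      linarith
    by_cases hxj : x = j
    · subst hxj
      rw [bb_eq hA h11, d3_right hA, h11, h]
      linarith
    · rw [bb_eq hA h11]
      have := hT i j x hij (Ne.symm hxi) (Ne.symm hxj)
      linarith
  rcases hA.zo x j with h' | h'
  · by_cases hxj : x = j
    · subst hxj
      rw [bb_eq hA h11, d3_right hA, h11, h']
      linarith
    · rw [bb_eq hA h11]
      have := hT i j x hij (hA.ne h).symm (Ne.symm hxj)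
      linarith
  · rw [bb_in hA hT hij h11 h h', h, h']
    linarith

lemma bb_nn (hA : Tn A) (i j x : V) : 0 ≤ bb A i j x :=
  sum_nonneg fun t _ => mul_nonneg (mul_nonneg (hA.nn t i) (hA.nn t j)) (hA.nn x t)

/-- two common dominators of such a pair have at least `2 L + 2` common dominators -/
lemma d2_in (hA : Tn A) (hL : 4 ≤ L) (hT : T3 A L) {i j : V} (hij : i ≠ j)
    (h11 : d2 A i j = 2 * L + 1) {y u : V}
    (hyi : A y i = 1) (hyj : A y j = 1) (hui : A u i = 1) (huj : A u j = 1) (hyu : y ≠ u) :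
    2 * L + 2 ≤ d2 A y u := by
  have h1 : ∑ t, A t i * A t j * d3 A y u t = ∑ x, A x y * A x u * bb A i j x := by
    unfold d3 bb
    simp only [mul_sum]
    rw [sum_comm]
    refine sum_congr rfl fun x _ => sum_congr rfl fun t _ => ?_
    ring
  have h2 : ∑ x, A x y * A x u * bb A i j x ≤ (L + 1) * d2 A y u := by
    unfold d2
    rw [mul_sum]
    refine sum_le_sum fun x _ => ?_
    have h3 := bb_le hA hL hT hij h11 x
    have h4 := mul_nonneg (hA.nn x y) (hA.nn x u)
    have h5 := mul_nonneg (hA.nn x i) (hA.nn x j)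
    have h6 : bb A i j x ≤ L + 1 := by linarith
    have h7 := mul_le_mul_of_nonneg_left h6 h4
    linarith
  have h3 : ∀ t, L * (A t i * A t j) + (if t = y then d2 A y u - L else 0) +
      (if t = u then d2 A y u - L else 0) ≤ A t i * A t j * d3 A y u t := by
    intro t
    by_cases hty : t = y
    · subst hty
      rw [if_pos rfl, if_neg hyu, hyi, hyj, d3_left hA]
      linarith
    by_cases htu : t = u
    · subst htu
      rw [if_pos rfl, if_neg hty, hui, huj, d3_right hA]
      linarith
    rw [if_neg hty, if_neg htu]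
    have h4 := hT y u t hyu (Ne.symm hty) (Ne.symm htu)
    have h5 := mul_nonneg (hA.nn t i) (hA.nn t j)
    have h6 := mul_le_mul_of_nonneg_left h4 h5
    linarith
  have h4 := sum_le_sum fun t (_ : t ∈ (univ : Finset V)) => h3 t
  rw [h1] at h4
  simp only [sum_add_distrib, sum_ite_eq', mem_univ, if_true, ← mul_sum] at h4
  have h5 : ∑ t, A t i * A t j = 2 * L + 1 := h11
  rw [h5] at h4
  by_contra hcon
  push Not at hcon
  have h6 : d2 A y u ≤ 2 * L + 1 := by omega
  have h7 : (L - 1) * d2 A y u ≤ (L - 1) * (2 * L + 1) :=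
    mul_le_mul_of_nonneg_left h6 (by linarith)
  linarith

lemma sum_bb (i j y : V) : ∑ u, A u i * A u j * d2 A y u = ∑ x, A x y * bb A i j x := by
  unfold d2 bb
  simp only [mul_sum]
  rw [sum_comm]
  refine sum_congr rfl fun x _ => sum_congr rfl fun t _ => ?_
  ring

lemma sum_bb_ge (hA : Tn A) (hL : 4 ≤ L) (hT : T3 A L) {i j : V} (hij : i ≠ j)
    (h11 : d2 A i j = 2 * L + 1) {y : V}
    (hyi : A y i = 1) (hyj : A y j = 1) :
    (2 * L + 2) * (2 * L) + d1 A y ≤ ∑ x, A x y * bb A i j x := by
  have h3 : ∀ u, (2 * L + 2) * (A u i * A u j) + (if u = y then d1 A y - (2 * L + 2) else 0) ≤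
      A u i * A u j * d2 A y u := by
    intro u
    by_cases huy : u = y
    · subst huy
      rw [if_pos rfl, hyi, hyj, d2_self hA]
      linarith
    rw [if_neg huy]
    rcases hA.zo u i with h | h
    · simp [h]
    rcases hA.zo u j with h' | h'
    · simp [h']
    have h4 := d2_in hA hL hT hij h11 hyi hyj h h' (Ne.symm huy)
    rw [h, h']
    linarith
  have h4 := sum_le_sum fun t (_ : t ∈ (univ : Finset V)) => h3 t
  rw [sum_bb] at h4
  simp only [sum_add_distrib, sum_ite_eq', mem_univ, if_true, ← mul_sum] at h4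
  have h5 : ∑ t, A t i * A t j = 2 * L + 1 := h11
  rw [h5] at h4
  linarith

lemma slack (hA : Tn A) (hL : 4 ≤ L) (hT : T3 A L) {i j : V} (hij : i ≠ j)
    (h11 : d2 A i j = 2 * L + 1) {y : V} (hyi : A y i = 1) (hyj : A y j = 1) :
    ∑ x, A x y * (L + 1 - A x i * A x j - bb A i j x) ≤ L * (d1 A y - (4 * L + 5)) := by
  have h1 : ∑ x, A x y * (L + 1 - A x i * A x j - bb A i j x) =
      (L + 1) * d1 A y - d3 A i j y - ∑ x, A x y * bb A i j x := by
    unfold d1 d3
    rw [mul_sum, ← sum_sub_distrib, ← sum_sub_distrib]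
    refine sum_congr rfl fun x _ => ?_
    ring
  rw [h1, d3_in hA hT hij h11 hyi hyj]
  have := sum_bb_ge hA hL hT hij h11 hyi hyj
  linarith

lemma slack_nn (hA : Tn A) (hL : 4 ≤ L) (hT : T3 A L) {i j : V} (hij : i ≠ j)
    (h11 : d2 A i j = 2 * L + 1) (x y : V) :
    0 ≤ A x y * (L + 1 - A x i * A x j - bb A i j x) :=
  mul_nonneg (hA.nn x y) (by linarith [bb_le hA hL hT hij h11 x])

/-- common dominators of such a pair have at least `4 L + 5` dominators -/
lemma d1_in (hA : Tn A) (hL : 4 ≤ L) (hT : T3 A L) {i j : V} (hij : i ≠ j)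
    (h11 : d2 A i j = 2 * L + 1) {y : V} (hyi : A y i = 1) (hyj : A y j = 1) :
    4 * L + 5 ≤ d1 A y := by
  have h1 := slack hA hL hT hij h11 hyi hyj
  have h2 : 0 ≤ ∑ x, A x y * (L + 1 - A x i * A x j - bb A i j x) :=
    sum_nonneg fun x _ => slack_nn hA hL hT hij h11 x y
  have h3 : L * 0 ≤ L * (d1 A y - (4 * L + 5)) := by linarith
  have h4 := le_of_mul_le_mul_left h3 (by linarith)
  linarith

/-- if `y` has exactly `4 L + 5` dominators, then they dominate `L + 1` vertices of `D(i, j)` or are
in it -/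
lemma bb_six (hA : Tn A) (hL : 4 ≤ L) (hT : T3 A L) {i j : V} (hij : i ≠ j)
    (h11 : d2 A i j = 2 * L + 1) {y : V}
    (hyi : A y i = 1) (hyj : A y j = 1) (hy : d1 A y = 4 * L + 5) {x : V} (hxy : A x y = 1) :
    bb A i j x = L + 1 - A x i * A x j := by
  have h1 := slack hA hL hT hij h11 hyi hyj
  rw [hy] at h1
  have h2 := zero_of_sum (fun x => slack_nn hA hL hT hij h11 x y) (by linarith) x
  rw [hxy] at h2
  linarith

/-- the sum of `e` over the dominators of such a pair is at least two -/
lemma e_ge_two (hA : Tn A) (hL : 4 ≤ L) (hT : T3 A L) (hV : (Fintype.card V : ℤ) = 8 * L + 11)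
    {i j : V} (hij : i ≠ j)
    (h11 : d2 A i j = 2 * L + 1) : 2 ≤ ∑ y, A y i * A y j * (d1 A y - (4 * L + 5)) := by
  by_contra hcon
  push Not at hcon
  have hterm : ∀ y, 0 ≤ A y i * A y j * (d1 A y - (4 * L + 5)) := by
    intro y
    rcases hA.zo y i with h | h
    · simp [h]
    rcases hA.zo y j with h' | h'
    · simp [h']
    rw [h, h']
    linarith [d1_in hA hL hT hij h11 h h']
  have hS : ∑ y, A y i * A y j * (d1 A y - (4 * L + 5)) =
      ∑ x, bb A i j x - (4 * L + 5) * (2 * L + 1) := by
    have h1 : ∑ x, bb A i j x = ∑ y, A y i * A y j * d1 A y := by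
      unfold bb d1
      rw [sum_comm]
      refine sum_congr rfl fun t _ => ?_
      rw [mul_sum]
    have h2 : ∑ y, A y i * A y j = 2 * L + 1 := h11
    rw [h1]
    have h3 : ∑ y, A y i * A y j * (d1 A y - (4 * L + 5)) =
        ∑ y, A y i * A y j * d1 A y - (4 * L + 5) * ∑ y, A y i * A y j := by
      rw [mul_sum, ← sum_sub_distrib]
      exact sum_congr rfl fun v _ => by ring
    rw [h3, h2]
  have hS0 : 0 ≤ ∑ y, A y i * A y j * (d1 A y - (4 * L + 5)) := sum_nonneg fun y _ => hterm y
  -- values of `bb`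
  have hval : ∀ x, A x i * A x j = 0 → bb A i j x = 0 ∨ bb A i j x = 1 ∨ bb A i j x = L + 1 := by
    intro x hx
    by_contra hne
    push Not at hne
    obtain ⟨h0, h1, h6⟩ := hne
    have hb := bb_nn hA i j x
    have hb2 : 2 ≤ bb A i j x := by omega
    by_cases hex : ∃ y, A y i = 1 ∧ A y j = 1 ∧ A x y = 1 ∧ d1 A y = 4 * L + 5
    · obtain ⟨y, hyi, hyj, hxy, hy⟩ := hex
      have h2 := bb_six hA hL hT hij h11 hyi hyj hy hxy
      rw [hx] at h2
      exact h6 (by linarith)
    · push Not at hex
      have h2 : bb A i j x ≤ ∑ y, A y i * A y j * (d1 A y - (4 * L + 5)) := by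
        unfold bb
        refine sum_le_sum fun y _ => ?_
        rcases hA.zo y i with h | h
        · simp [h]
        rcases hA.zo y j with h' | h'
        · simp [h']
        have h3 := d1_in hA hL hT hij h11 h h'
        rcases hA.zo x y with h'' | h''
        · rw [h, h', h'']
          linarith
        · have h4 := hex y h h' h''
          rw [h, h', h'']
          have h5 : 4 * L + 6 ≤ d1 A y := by omega
          linarith
      linarith
  -- counting
  have hi0 : bb A i j i = 0 := by
    rw [bb_eq hA h11, d3_left hA, h11, hA.irr]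
    ring
  have hj0 : bb A i j j = 0 := by
    rw [bb_eq hA h11, d3_right hA, h11, hA.irr]
    ring
  have hup : ∀ x, bb A i j x ≤ 1 + (L - 1) * (A x i * A x j) +
      L * (if bb A i j x = L + 1 then 1 else 0) -
      (if x = i then 1 else 0) - (if x = j then 1 else 0) := by
    intro x
    by_cases hxi : x = i
    · subst hxi
      rw [if_neg hij, if_pos rfl, hi0, hA.irr, if_neg (by linarith)]
      linarith
    by_cases hxj : x = j
    · subst hxj
      rw [if_neg hxi, if_pos rfl, hj0, hA.irr, if_neg (by linarith)]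
      linarith
    rw [if_neg hxi, if_neg hxj]
    have hin : A x i * A x j = 0 → bb A i j x ≤ 1 + (L - 1) * (A x i * A x j) +
        L * (if bb A i j x = L + 1 then 1 else 0) - 0 - 0 := by
      intro h0
      rcases hval x h0 with h2 | h2 | h2
      · rw [h2, h0, if_neg (by linarith)]
        linarith
      · rw [h2, h0, if_neg (by linarith)]
        linarith
      · rw [h2, h0, if_pos rfl]
        linarith
    rcases hA.zo x i with h | h
    · exact hin (by rw [h]; ring)
    rcases hA.zo x j with h' | h'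
    · exact hin (by rw [h']; ring)
    rw [bb_in hA hT hij h11 h h', h, h', if_neg (by linarith)]
    linarith
  have hlo : ∀ x, L * (A x i * A x j) + (L + 1) * (if bb A i j x = L + 1 then 1 else 0) ≤
      bb A i j x := by
    intro x
    have hin : A x i * A x j = 0 → L * (A x i * A x j) +
        (L + 1) * (if bb A i j x = L + 1 then 1 else 0) ≤ bb A i j x := by
      intro h0
      rcases hval x h0 with h2 | h2 | h2
      · rw [h2, h0, if_neg (by linarith)]
        linarith
      · rw [h2, h0, if_neg (by linarith)]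
        linarith
      · rw [h2, h0, if_pos rfl]
        linarith
    rcases hA.zo x i with h | h
    · exact hin (by rw [h]; ring)
    rcases hA.zo x j with h' | h'
    · exact hin (by rw [h']; ring)
    rw [bb_in hA hT hij h11 h h', h, h', if_neg (by linarith)]
    linarith
  have hw : ∑ x, A x i * A x j = 2 * L + 1 := h11
  have h1 := sum_le_sum fun t (_ : t ∈ (univ : Finset V)) => hup t
  have h2 := sum_le_sum fun t (_ : t ∈ (univ : Finset V)) => hlo t
  rw [sum_add_distrib, ← mul_sum, ← mul_sum, hw] at h2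
  rw [sum_sub_distrib, sum_sub_distrib, sum_add_distrib, sum_add_distrib, ← mul_sum, ← mul_sum,
    hw, sum_ite_eq', sum_ite_eq', if_pos (mem_univ _), if_pos (mem_univ _), sum_one, hV] at h1
  generalize ∑ x, bb A i j x = s at *
  generalize (∑ x : V, if bb A i j x = L + 1 then (1 : ℤ) else 0) = a at *
  have h3 : s ≤ (4 * L + 5) * (2 * L + 1) + 1 := by omega
  have h4 : (4 * L + 5) * (2 * L + 1) ≤ s := by omega
  have h5 : (L + 1) * a < (L + 1) * (6 * L + 7) := by linarith
  have h6 : a < 6 * L + 7 := lt_of_mul_lt_mul_left h5 (by linarith)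
  have h7 : a ≤ 6 * L + 6 := by omega
  have h8 : L * a ≤ L * (6 * L + 6) := mul_le_mul_of_nonneg_left h7 (by linarith)
  linarith

/-! ### the global step -/

/-- `e` -/
def ee (A : V → V → ℤ) (L : ℤ) (y : V) : ℤ := d1 A y - (4 * L + 5)

/-- positive part of `e` -/
def ep (A : V → V → ℤ) (L : ℤ) (y : V) : ℤ := max (ee A L y) 0

/-- indicator of `e < 0` -/
def nn (A : V → V → ℤ) (L : ℤ) (y : V) : ℤ := if ee A L y < 0 then 1 else 0

/-- indicator of the pairs with `2 L + 1` common dominators -/
def JJ (A : V → V → ℤ) (L : ℤ) (i j : V) : ℤ := if j ≠ i ∧ d2 A i j = 2 * L + 1 then 1 else 0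

/-- the number of such pairs at `i` -/
def gg (A : V → V → ℤ) (L : ℤ) (i : V) : ℤ := ∑ j, JJ A L i j

/-- positive mass dominating `i` -/
def PP (A : V → V → ℤ) (L : ℤ) (i : V) : ℤ := ∑ y, A y i * ep A L y

/-- number of negative dominators of `i` -/
def zz (A : V → V → ℤ) (L : ℤ) (i : V) : ℤ := ∑ y, A y i * nn A L y

lemma JJ_zo (i j : V) : JJ A L i j = 0 ∨ JJ A L i j = 1 := by
  unfold JJ
  split_ifs
  · exact Or.inr rfl
  · exact Or.inl rfl

lemma JJ_one {i j : V} (h : JJ A L i j = 1) : i ≠ j ∧ d2 A i j = 2 * L + 1 := by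
  unfold JJ at h
  split_ifs at h with h1
  · exact ⟨Ne.symm h1.1, h1.2⟩
  · exact absurd h (by norm_num)

lemma nn_zo (y : V) : nn A L y = 0 ∨ nn A L y = 1 := by
  unfold nn
  split_ifs
  · exact Or.inr rfl
  · exact Or.inl rfl

lemma nn_one {y : V} (h : nn A L y = 1) : ee A L y < 0 := by
  unfold nn at h
  split_ifs at h with h1
  · exact h1
  · exact absurd h (by norm_num)

/-- a common dominator of such a pair is not negative -/
lemma JJ_nonneg (hA : Tn A) (hL : 4 ≤ L) (hT : T3 A L) {i j y : V} (h : JJ A L i j = 1)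
    (hi : A y i = 1) (hj : A y j = 1) : 0 ≤ ee A L y := by
  obtain ⟨h1, h2⟩ := JJ_one h
  have := d1_in hA hL hT h1 h2 hi hj
  unfold ee
  linarith

lemma out_eq (hA : Tn A) (hV : (Fintype.card V : ℤ) = 8 * L + 11) (x : V) :
    ∑ t, A x t = 8 * L + 10 - d1 A x := by
  have h := inout hA (fun _ => (1 : ℤ)) x
  simp only [one_mul] at h
  rw [sum_one, hV] at h
  unfold d1
  linarith

lemma sum_d2 (hA : Tn A) (hV : (Fintype.card V : ℤ) = 8 * L + 11) (i : V) :
    ∑ j, d2 A i j = (4 * L + 5) * d1 A i - ∑ y, A y i * ee A L y := by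
  have h1 : ∑ j, d2 A i j = ∑ x, A x i * (8 * L + 10 - d1 A x) := by
    unfold d2
    rw [sum_comm]
    refine sum_congr rfl fun x _ => ?_
    rw [← mul_sum, out_eq hA hV]
  rw [h1]
  unfold ee
  have h2 : (4 * L + 5) * d1 A i = ∑ x, A x i * (4 * L + 5) := by
    unfold d1
    rw [← sum_mul]
    ring
  rw [h2, ← sum_sub_distrib]
  refine sum_congr rfl fun x _ => ?_
  ring

/-- the identity for the row sums, as an inequality -/
lemma g_ge (hA : Tn A) (hL : 4 ≤ L) (hT : T3 A L) (hV : (Fintype.card V : ℤ) = 8 * L + 11) (i : V) :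
    ∑ y, A y i * ee A L y - (4 * L + 4) * ee A L i ≤ gg A L i := by
  have h1 : ∀ j, 2 * L + 2 - JJ A L i j + (if j = i then d1 A i - (2 * L + 2) else 0) ≤
      d2 A i j := by
    intro j
    by_cases hj : j = i
    · subst hj
      rw [if_pos rfl, d2_self hA]
      unfold JJ
      rw [if_neg (fun h => h.1 rfl)]
      linarith
    rw [if_neg hj]
    have h2 := d2_ge hA hL hT hV (Ne.symm hj)
    unfold JJ
    split_ifs with h3
    · linarith
    · have h4 : d2 A i j ≠ 2 * L + 1 := fun h => h3 ⟨hj, h⟩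
      omega
  have h2 := sum_le_sum fun t (_ : t ∈ (univ : Finset V)) => h1 t
  rw [sum_d2 hA hV, sum_add_distrib, sum_sub_distrib, sum_ite_eq', if_pos (mem_univ _), sum_cst,
    hV] at h2
  have h3 : d1 A i = ee A L i + (4 * L + 5) := by
    unfold ee
    ring
  unfold gg
  rw [h3] at h2
  linarith

lemma g_ge' (hA : Tn A) (hL : 4 ≤ L) (hT : T3 A L) (hV : (Fintype.card V : ℤ) = 8 * L + 11)
    {i k : V} (hik : i ≠ k) (hk : 2 * L + 2 ≤ d2 A i k) :
    ∑ y, A y i * ee A L y - (4 * L + 4) * ee A L i + (d2 A i k - (2 * L + 2)) ≤ gg A L i := by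
  have h1 : ∀ j, 2 * L + 2 - JJ A L i j + (if j = i then d1 A i - (2 * L + 2) else 0) +
      (if j = k then d2 A i k - (2 * L + 2) else 0) ≤ d2 A i j := by
    intro j
    by_cases hj : j = i
    · subst hj
      rw [if_pos rfl, if_neg hik, d2_self hA]
      unfold JJ
      rw [if_neg (fun h => h.1 rfl)]
      linarith
    rw [if_neg hj]
    by_cases hjk : j = k
    · subst hjk
      rw [if_pos rfl]
      rcases JJ_zo (A := A) (L := L) i j with h | h <;> rw [h] <;> linarith
    rw [if_neg hjk]
    have h2 := d2_ge hA hL hT hV (Ne.symm hj)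
    unfold JJ
    split_ifs with h3
    · linarith
    · have h4 : d2 A i j ≠ 2 * L + 1 := fun h => h3 ⟨hj, h⟩
      omega
  have h2 := sum_le_sum fun t (_ : t ∈ (univ : Finset V)) => h1 t
  rw [sum_d2 hA hV, sum_add_distrib, sum_add_distrib, sum_sub_distrib, sum_ite_eq',
    if_pos (mem_univ _), sum_ite_eq', if_pos (mem_univ _), sum_cst, hV] at h2
  have h3 : d1 A i = ee A L i + (4 * L + 5) := by
    unfold ee
    ring
  unfold gg
  rw [h3] at h2
  linarith

lemma g_le (hV : (Fintype.card V : ℤ) = 8 * L + 11) (i : V) : gg A L i ≤ 8 * L + 10 := by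
  have h1 : ∀ j, JJ A L i j ≤ 1 - (if j = i then 1 else 0) := by
    intro j
    by_cases hj : j = i
    · subst hj
      unfold JJ
      rw [if_neg (fun h => h.1 rfl), if_pos rfl]
      norm_num
    rw [if_neg hj]
    rcases JJ_zo (A := A) (L := L) i j with h | h <;> rw [h] <;> norm_num
  have h2 := sum_le_sum fun t (_ : t ∈ (univ : Finset V)) => h1 t
  rw [sum_sub_distrib, sum_ite_eq', if_pos (mem_univ _), sum_one, hV] at h2
  unfold gg
  linarith

/-- every such pair at `i` needs positive mass two, and a positive vertex dominates few vertices -/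
lemma two_g (hA : Tn A) (hL : 4 ≤ L) (hT : T3 A L) (hV : (Fintype.card V : ℤ) = 8 * L + 11) (i : V) :
    2 * gg A L i ≤ (4 * L + 3) * PP A L i := by
  have h1 : 2 * gg A L i ≤ ∑ j, JJ A L i j * ∑ y, A y i * A y j * ee A L y := by
    unfold gg
    rw [mul_sum]
    refine sum_le_sum fun j _ => ?_
    rcases JJ_zo (A := A) (L := L) i j with h | h
    · rw [h]
      norm_num
    · obtain ⟨h2, h3⟩ := JJ_one h
      have h4 := e_ge_two hA hL hT hV h2 h3
      rw [h]
      unfold ee
      linarith
  have h2 : ∑ j, JJ A L i j * ∑ y, A y i * A y j * ee A L y =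
      ∑ y, A y i * ee A L y * ∑ j, JJ A L i j * A y j := by
    simp only [mul_sum]
    rw [sum_comm]
    refine sum_congr rfl fun x _ => sum_congr rfl fun t _ => ?_
    ring
  have h3 : ∑ y, A y i * ee A L y * ∑ j, JJ A L i j * A y j ≤ (4 * L + 3) * PP A L i := by
    unfold PP
    rw [mul_sum]
    refine sum_le_sum fun y _ => ?_
    rcases hA.zo y i with h | h
    · rw [h]
      linarith
    rw [h]
    have hc0 : 0 ≤ ∑ j, JJ A L i j * A y j := sum_nonneg fun j _ => by
      rcases JJ_zo (A := A) (L := L) i j with h | h <;> rw [h]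
      · norm_num
      · have := hA.nn y j
        linarith
    have hc1 : ∑ j, JJ A L i j * A y j ≤ 4 * L + 4 - ee A L y := by
      have h4 : ∀ j, JJ A L i j * A y j ≤ A y j - (if j = i then 1 else 0) := by
        intro j
        by_cases hj : j = i
        · subst hj
          unfold JJ
          rw [if_neg (fun h => h.1 rfl), if_pos rfl, h]
          norm_num
        rw [if_neg hj]
        have := hA.nn y j
        rcases JJ_zo (A := A) (L := L) i j with h | h <;> rw [h] <;> linarith
      have h5 := sum_le_sum fun t (_ : t ∈ (univ : Finset V)) => h4 t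
      rw [sum_sub_distrib, sum_ite_eq', if_pos (mem_univ _), out_eq hA hV] at h5
      unfold ee
      linarith
    generalize ∑ j, JJ A L i j * A y j = c at *
    unfold ep
    rcases le_total (ee A L y) 0 with h5 | h5
    · rw [max_eq_right h5]
      nlinarith
    · rw [max_eq_left h5]
      rcases eq_or_lt_of_le h5 with h6 | h6
      · rw [← h6]
        linarith
      · have h7 : 1 ≤ ee A L y := h6
        have h8 : c ≤ 4 * L + 3 := by linarith
        have h9 := mul_le_mul_of_nonneg_left h8 h5
        linarith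
  linarith

/-- no vertex has exactly `4 L + 3` dominators -/
lemma no23 (hA : Tn A) (hL : 4 ≤ L) (hT : T3 A L) (hV : (Fintype.card V : ℤ) = 8 * L + 11) (i : V) :
    d1 A i ≠ 4 * L + 3 := by
  intro hi
  have h1 := d1_quad hA i
  have h2 := d1_sum (A := A) (L := L) i
  rw [hi] at h1 h2
  have h3 : ∀ v, A v i = 1 → d2 A i v = 2 * L + 1 := by
    intro v hv
    have h4 := zero_of_sum (fun v => d1_term hA hL hT hV i v) (by linarith) v
    rw [hv] at h4
    linarith
  have h4 : ∀ y, A y i = 1 → 0 ≤ ee A L y := by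
    intro y hy
    have h5 := inout hA (fun v => A v i) y
    have h6 : ∑ t, A t i * A t y = 2 * L + 1 := h3 y hy
    have h7 : ∑ t, A t i = 4 * L + 3 := hi
    rw [h6, h7, hy] at h5
    have h8 : ∃ v, A v i * A y v ≠ 0 := by
      by_contra hcon
      push Not at hcon
      have h9 : ∑ t, A t i * A y t = 0 := sum_eq_zero fun t _ => hcon t
      linarith
    obtain ⟨v, hv⟩ := h8
    have hvi : A v i = 1 := (hA.zo v i).resolve_left (fun h => hv (by rw [h]; ring))
    have hyv : A y v = 1 := (hA.zo y v).resolve_left (fun h => hv (by rw [h]; ring))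
    have := d1_in hA hL hT (hA.ne hvi).symm (h3 v hvi) hy hyv
    unfold ee
    linarith
  have h5 : ∑ y, A y i * ee A L y = PP A L i := by
    unfold PP
    refine sum_congr rfl fun y _ => ?_
    rcases hA.zo y i with h | h
    · rw [h]
      ring
    · unfold ep
      rw [max_eq_left (h4 y h)]
  have h6 := g_ge hA hL hT hV i
  have h7 := two_g hA hL hT hV i
  have h8 := g_le (A := A) hV i
  have h9 : ee A L i = -2 := by
    unfold ee
    rw [hi]
    ring
  rw [h5, h9] at h6
  have h10 : PP A L i ≤ 2 := by linarith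
  have h11 : (4 * L + 1) * PP A L i ≤ (4 * L + 1) * 2 :=
    mul_le_mul_of_nonneg_left h10 (by linarith)
  linarith

lemma e_ge (hA : Tn A) (hL : 4 ≤ L) (hT : T3 A L) (hV : (Fintype.card V : ℤ) = 8 * L + 11) (i : V) :
    -1 ≤ ee A L i := by
  have h1 := d1_ge hA hL hT hV i
  have h2 := no23 hA hL hT hV i
  unfold ee
  omega

lemma ee_eq (hA : Tn A) (hL : 4 ≤ L) (hT : T3 A L) (hV : (Fintype.card V : ℤ) = 8 * L + 11) (y : V) :
    ee A L y = ep A L y - nn A L y := by
  have h1 := e_ge hA hL hT hV y
  unfold ep nn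
  split_ifs with h
  · rw [max_eq_right h.le]
    omega
  · rw [max_eq_left (not_lt.1 h)]
    ring

lemma nn_d1 (hA : Tn A) (hL : 4 ≤ L) (hT : T3 A L) (hV : (Fintype.card V : ℤ) = 8 * L + 11) {i : V}
    (h : nn A L i = 1) : d1 A i = 4 * L + 4 := by
  have h1 := e_ge hA hL hT hV i
  have h2 := nn_one h
  unfold ee at h1 h2
  omega

lemma sum_e (hA : Tn A) (hL : 4 ≤ L) (hT : T3 A L) (hV : (Fintype.card V : ℤ) = 8 * L + 11) (i : V) :
    ∑ y, A y i * ee A L y = PP A L i - zz A L i := by
  unfold PP zz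
  rw [← sum_sub_distrib]
  refine sum_congr rfl fun y _ => ?_
  rw [ee_eq hA hL hT hV]
  ring

/-- the main inequality at a negative vertex -/
lemma neg_g (hA : Tn A) (hL : 4 ≤ L) (hT : T3 A L) (hV : (Fintype.card V : ℤ) = 8 * L + 11) {i : V}
    (h : nn A L i = 1) : PP A L i - zz A L i + (4 * L + 4) ≤ gg A L i := by
  have h1 := g_ge hA hL hT hV i
  rw [sum_e hA hL hT hV] at h1
  have h2 : ee A L i = -1 := by
    unfold ee
    rw [nn_d1 hA hL hT hV h]
    ring
  rw [h2] at h1
  linarith

/-- a negative dominator `z` of `i` is dominated by the partners of `i` -/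
lemma JJ_dom (hA : Tn A) (hL : 4 ≤ L) (hT : T3 A L) {i j z : V} (h : JJ A L i j = 1)
    (hz : A z i = 1) (hn : nn A L z = 1) (hjz : j ≠ z) : A j z = 1 := by
  rcases hA.zo z j with h1 | h1
  · have := hA.tot j z hjz
    linarith
  · have h2 := JJ_nonneg hA hL hT h hz h1
    have h3 := nn_one hn
    exact absurd h3 (not_lt.2 h2)

lemma z_le (hA : Tn A) (hL : 4 ≤ L) (hT : T3 A L) (hV : (Fintype.card V : ℤ) = 8 * L + 11) {i : V}
    (hi : nn A L i = 1) : zz A L i ≤ L + 1 := by
  have h24 := nn_d1 hA hL hT hV hi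
  have h1 := d1_quad hA i
  have h2 := d1_sum (A := A) (L := L) i
  rw [h24] at h1 h2
  have h3 : ∑ v, A v i * (d2 A i v - (2 * L + 1)) = 2 * L + 2 := by linarith
  -- the vertices with `2 L + 1` dominators in `D(i)`
  have hal : 2 * L + 2 ≤ ∑ v, A v i * JJ A L i v := by
    have h4 : ∀ v, A v i - A v i * JJ A L i v ≤ A v i * (d2 A i v - (2 * L + 1)) := by
      intro v
      rcases hA.zo v i with h | h
      · rw [h]
        norm_num
      have h5 := d2_ge hA hL hT hV (hA.ne h).symm
      rcases JJ_zo (A := A) (L := L) i v with h6 | h6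
      · have h7 : d2 A i v ≠ 2 * L + 1 := by
          intro h8
          unfold JJ at h6
          rw [if_pos ⟨hA.ne h, h8⟩] at h6
          exact absurd h6 (by norm_num)
        rw [h, h6]
        omega
      · rw [h, h6]
        linarith
    have h5 := sum_le_sum fun t (_ : t ∈ (univ : Finset V)) => h4 t
    rw [sum_sub_distrib, h3] at h5
    have h6 : ∑ v, A v i = 4 * L + 4 := h24
    linarith
  have hone : ∑ v, A v i * JJ A L i v * nn A L v ≤ 1 := by
    refine sum_le_one ?_ ?_
    · intro v
      rcases hA.zo v i with h | h <;> rcases JJ_zo (A := A) (L := L) i v with h' | h' <;>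
        rcases nn_zo (A := A) (L := L) v with h'' | h'' <;> simp [h, h', h'']
    · intro u v hu hv
      by_contra huv
      have e1 : ∀ x, A x i * JJ A L i x * nn A L x = 1 →
          A x i = 1 ∧ JJ A L i x = 1 ∧ nn A L x = 1 := by
        intro x hx
        rcases hA.zo x i with h | h
        · rw [h] at hx
          norm_num at hx
        rcases JJ_zo (A := A) (L := L) i x with h' | h'
        · rw [h'] at hx
          norm_num at hx
        rcases nn_zo (A := A) (L := L) x with h'' | h''
        · rw [h''] at hx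
          norm_num at hx
        exact ⟨h, h', h''⟩
      obtain ⟨a1, a2, a3⟩ := e1 u hu
      obtain ⟨b1, b2, b3⟩ := e1 v hv
      have c1 := JJ_dom hA hL hT a2 b1 b3 huv
      have c2 := JJ_dom hA hL hT b2 a1 a3 (Ne.symm huv)
      have c3 := hA.tot u v huv
      linarith
  have hap : 2 * L + 1 ≤ ∑ v, A v i * JJ A L i v * (1 - nn A L v) := by
    have h4 : ∑ v, A v i * JJ A L i v * (1 - nn A L v) =
        ∑ v, A v i * JJ A L i v - ∑ v, A v i * JJ A L i v * nn A L v := by
      rw [← sum_sub_distrib]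
      exact sum_congr rfl fun v _ => by ring
    linarith
  have hz : ∀ z, A z i * nn A L z * ∑ x, A x i * nn A L x * A x z ≤
      A z i * (d2 A i z - (2 * L + 1)) := by
    intro z
    rcases hA.zo z i with h | h
    · rw [h]
      norm_num
    rcases nn_zo (A := A) (L := L) z with h' | h'
    · rw [h']
      have := d1_term hA hL hT hV i z
      linarith
    rw [h, h']
    have h4 : ∀ x, A x i * JJ A L i x * (1 - nn A L x) + A x i * nn A L x * A x z ≤
        A x i * A x z := by
      intro x
      rcases hA.zo x i with a | a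
      · rw [a]
        norm_num
      rcases nn_zo (A := A) (L := L) x with b | b
      · rcases JJ_zo (A := A) (L := L) i x with c | c
        · rw [a, b, c]
          have := hA.nn x z
          linarith
        · have hxz : x ≠ z := by
            rintro rfl
            rw [b] at h'
            exact absurd h' (by norm_num)
          rw [a, b, c, JJ_dom hA hL hT c h h' hxz]
          norm_num
      · rw [a, b]
        linarith
    have h5 := sum_le_sum fun t (_ : t ∈ (univ : Finset V)) => h4 t
    rw [sum_add_distrib] at h5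
    have h6 : ∑ x, A x i * A x z = d2 A i z := rfl
    linarith
  have h7 := sum_le_sum fun t (_ : t ∈ (univ : Finset V)) => hz t
  rw [h3] at h7
  have h8 := quad hA (w := fun x => A x i * nn A L x) (fun x => by
    rcases hA.zo x i with h | h <;> rcases nn_zo (A := A) (L := L) x with h' | h' <;> simp [h, h'])
  have h9 : ∑ x, A x i * nn A L x = zz A L i := rfl
  rw [h9] at h8
  by_contra hcon
  push Not at hcon
  have h10 : L + 2 ≤ zz A L i := by omega
  have h11 : (L + 2) * (L + 1) ≤ zz A L i * (zz A L i - 1) :=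
    mul_le_mul h10 (by linarith) (by linarith) (by linarith)
  nlinarith

/-- a negative dominator bounds the number of pairs -/
lemma g_le25 (hA : Tn A) (hL : 4 ≤ L) (hT : T3 A L) (hV : (Fintype.card V : ℤ) = 8 * L + 11)
    {i z : V} (hz : A z i = 1) (hn : nn A L z = 1) : gg A L i ≤ 4 * L + 5 := by
  have h1 : ∀ j, JJ A L i j ≤ A j z + (if j = z then 1 else 0) := by
    intro j
    have h0 := hA.nn j z
    rcases JJ_zo (A := A) (L := L) i j with h | h
    · rw [h]
      split_ifs <;> linarith
    · by_cases hj : j = z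
      · rw [h, if_pos hj]
        linarith
      · rw [h, if_neg hj, JJ_dom hA hL hT h hz hn hj]
        norm_num
  have h2 := sum_le_sum fun t (_ : t ∈ (univ : Finset V)) => h1 t
  rw [sum_add_distrib, sum_ite_eq', if_pos (mem_univ _)] at h2
  have h3 : ∑ j, A j z = 4 * L + 4 := nn_d1 hA hL hT hV hn
  unfold gg
  linarith

lemma g_le_d2 (hA : Tn A) (hL : 4 ≤ L) (hT : T3 A L) {i z z' : V} (hz : A z i = 1)
    (hn : nn A L z = 1) (hz' : A z' i = 1) (hn' : nn A L z' = 1) (hzz : A z z' = 1) :
    gg A L i ≤ 1 + d2 A z z' := by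
  have h1 : ∀ j, JJ A L i j ≤ A j z * A j z' + (if j = z then 1 else 0) := by
    intro j
    have h0 := mul_nonneg (hA.nn j z) (hA.nn j z')
    rcases JJ_zo (A := A) (L := L) i j with h | h
    · rw [h]
      split_ifs <;> linarith
    · by_cases hj : j = z
      · rw [h, if_pos hj]
        linarith
      · have hj' : j ≠ z' := by
          rintro rfl
          have h2 := JJ_dom hA hL hT h hz hn hj
          have h3 := hA.tot _ _ hj
          linarith
        rw [h, if_neg hj, JJ_dom hA hL hT h hz hn hj, JJ_dom hA hL hT h hz' hn' hj']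
        norm_num
  have h2 := sum_le_sum fun t (_ : t ∈ (univ : Finset V)) => h1 t
  rw [sum_add_distrib, sum_ite_eq', if_pos (mem_univ _)] at h2
  have h3 : ∑ j, A j z * A j z' = d2 A z z' := rfl
  unfold gg
  linarith

lemma P_ge (hA : Tn A) (hL : 4 ≤ L) (hT : T3 A L) (hV : (Fintype.card V : ℤ) = 8 * L + 11) {i : V}
    (h : nn A L i = 1) : 8 * L + 8 - 2 * zz A L i ≤ (4 * L + 1) * PP A L i := by
  have h1 := neg_g hA hL hT hV h
  have h2 := two_g hA hL hT hV i
  linarith

lemma P_ge_two (hA : Tn A) (hL : 4 ≤ L) (hT : T3 A L) (hV : (Fintype.card V : ℤ) = 8 * L + 11)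
    {i : V} (h : nn A L i = 1) : 2 ≤ PP A L i := by
  have h1 := P_ge hA hL hT hV h
  have h2 := z_le hA hL hT hV h
  by_contra hcon
  push Not at hcon
  have h3 : PP A L i ≤ 1 := by omega
  have h4 : (4 * L + 1) * PP A L i ≤ (4 * L + 1) * 1 :=
    mul_le_mul_of_nonneg_left h3 (by linarith)
  linarith

/-- a negative vertex has no negative dominator -/
lemma no_neg (hA : Tn A) (hL : 4 ≤ L) (hT : T3 A L) (hV : (Fintype.card V : ℤ) = 8 * L + 11)
    {i z : V} (hi : nn A L i = 1) (hz : A z i = 1) (hn : nn A L z = 1) : False := by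
  have h1 := neg_g hA hL hT hV hi
  have h2 := g_le25 hA hL hT hV hz hn
  have h3 := P_ge hA hL hT hV hi
  have h3' := P_ge_two hA hL hT hV hi
  have h4 := z_le hA hL hT hV hi
  -- no arc between two negative dominators of `i`
  have key : ∀ u v, A u i = 1 → nn A L u = 1 → A v i = 1 → nn A L v = 1 → A u v = 1 → False := by
    intro u v hu hu' hv hv' huv
    have k1 := g_le_d2 hA hL hT hu hu' hv hv' huv
    have k3 := g_le25 hA hL hT hV huv hu'
    have k4 := P_ge_two hA hL hT hV hv'
    have k5 := z_le hA hL hT hV hv'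
    have k6 : 3 * L + 4 ≤ d2 A u v := by linarith
    rw [d2_comm] at k6 k1
    have k7 := g_ge' hA hL hT hV (hA.ne huv).symm (by linarith)
    rw [sum_e hA hL hT hV] at k7
    have k8 : ee A L v = -1 := by
      unfold ee
      rw [nn_d1 hA hL hT hV hv']
      ring
    rw [k8] at k7
    linarith
  have h5 : zz A L i ≤ 1 := by
    unfold zz
    have e1 : ∀ x, A x i * nn A L x = 1 → A x i = 1 ∧ nn A L x = 1 := by
      intro x hx
      rcases hA.zo x i with h | h
      · rw [h] at hx
        norm_num at hx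
      rcases nn_zo (A := A) (L := L) x with h'' | h''
      · rw [h''] at hx
        norm_num at hx
      exact ⟨h, h''⟩
    refine sum_le_one ?_ ?_
    · intro v
      rcases hA.zo v i with h | h <;> rcases nn_zo (A := A) (L := L) v with h'' | h'' <;>
        simp [h, h'']
    · intro u v hu hv
      by_contra huv
      obtain ⟨a1, a2⟩ := e1 u hu
      obtain ⟨b1, b2⟩ := e1 v hv
      rcases hA.zo u v with h | h
      · have h6 := hA.tot u v huv
        exact key v u b1 b2 a1 a2 (by linarith)
      · exact key u v a1 a2 b1 b2 h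
  have h6 : PP A L i ≤ 2 := by linarith
  have h7 : (4 * L + 1) * PP A L i ≤ (4 * L + 1) * 2 :=
    mul_le_mul_of_nonneg_left h6 (by linarith)
  linarith

lemma sum_ee (hA : Tn A) (hV : (Fintype.card V : ℤ) = 8 * L + 11) : ∑ y, ee A L y = 0 := by
  have h1 := quad hA (w := fun _ => (1 : ℤ)) (fun _ => Or.inr rfl)
  simp only [one_mul] at h1
  rw [sum_one, hV] at h1
  have h2 : ∑ y, ee A L y = ∑ y, d1 A y - (4 * L + 5) * ∑ _x : V, (1 : ℤ) := by
    unfold ee
    rw [mul_sum, ← sum_sub_distrib]
    exact sum_congr rfl fun v _ => by ring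
  rw [h2, sum_one, hV]
  unfold d1
  linarith

/-- the tournament is regular -/
lemma regular (hA : Tn A) (hL : 4 ≤ L) (hT : T3 A L) (hV : (Fintype.card V : ℤ) = 8 * L + 11)
    (i : V) : d1 A i = 4 * L + 5 := by
  have hsum := sum_ee hA hV
  have hN : ∀ v, nn A L v = 0 := by
    intro v
    rcases nn_zo (A := A) (L := L) v with h | h
    · exact h
    exfalso
    have h1 : ∑ y, nn A L y ≤ 1 := by
      refine sum_le_one (fun v => nn_zo v) ?_
      intro a b ha hb
      by_contra hab
      rcases hA.zo a b with h2 | h2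
      · have h3 := hA.tot a b hab
        exact no_neg hA hL hT hV ha (by linarith) hb
      · exact no_neg hA hL hT hV hb h2 ha
    have h2 : zz A L v = 0 := by
      unfold zz
      refine sum_eq_zero fun y _ => ?_
      rcases hA.zo y v with a | a
      · rw [a]
        ring
      rcases nn_zo (A := A) (L := L) y with b | b
      · rw [b]
        ring
      · exact (no_neg hA hL hT hV h a b).elim
    have h3 := P_ge_two hA hL hT hV h
    have h4 : PP A L v ≤ ∑ y, ep A L y := by
      unfold PP
      refine sum_le_sum fun y _ => ?_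
      have h5 : 0 ≤ ep A L y := le_max_right _ _
      have := hA.le1 y v
      nlinarith
    have h5 : ∑ y, ee A L y = ∑ y, ep A L y - ∑ y, nn A L y := by
      rw [← sum_sub_distrib]
      exact sum_congr rfl fun y _ => ee_eq hA hL hT hV y
    rw [hsum] at h5
    omega
  have h1 : ∀ v, 0 ≤ ee A L v := by
    intro v
    have h2 := hN v
    by_contra hcon
    push Not at hcon
    unfold nn at h2
    rw [if_pos hcon] at h2
    exact absurd h2 (by norm_num)
  have h2 := zero_of_sum h1 hsum.le i
  unfold ee at h2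
  linarith

/-- all pairs have exactly `2 L + 2` common dominators -/
lemma doubly (hA : Tn A) (hL : 4 ≤ L) (hT : T3 A L) (hV : (Fintype.card V : ℤ) = 8 * L + 11)
    {i j : V} (hij : i ≠ j) : d2 A i j = 2 * L + 2 := by
  have hreg := regular hA hL hT hV
  have h11 : ∀ a b, a ≠ b → 2 * L + 2 ≤ d2 A a b := by
    intro a b hab
    have h1 := d2_ge hA hL hT hV hab
    by_contra hcon
    push Not at hcon
    have h2 : d2 A a b = 2 * L + 1 := by omega
    have h3 := e_ge_two hA hL hT hV hab h2
    have h4 : ∑ y, A y a * A y b * (d1 A y - (4 * L + 5)) = 0 := by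
      refine sum_eq_zero fun y _ => ?_
      rw [hreg]
      ring
    linarith
  have h1 : ∀ b, 0 ≤ d2 A i b - (2 * L + 2) - (if b = i then 2 * L + 3 else 0) := by
    intro b
    by_cases hb : b = i
    · subst hb
      rw [if_pos rfl, d2_self hA, hreg]
      linarith
    · rw [if_neg hb]
      have := h11 i b (Ne.symm hb)
      linarith
  have h2 : ∑ b, (d2 A i b - (2 * L + 2) - (if b = i then 2 * L + 3 else 0)) = 0 := by
    rw [sum_sub_distrib, sum_sub_distrib, sum_ite_eq', if_pos (mem_univ _), sum_cst, hV,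
      sum_d2 hA hV, hreg]
    have h3 : ∑ y, A y i * ee A L y = 0 := by
      refine sum_eq_zero fun y _ => ?_
      unfold ee
      rw [hreg]
      ring
    rw [h3]
    ring
  have h3 := zero_of_sum h1 h2.le j
  rw [if_neg (Ne.symm hij)] at h3
  linarith

/-! ### the doubly regular case -/

/-- the number of vertices dominated by `a`, `b` and `c` -/
def n3 (A : V → V → ℤ) (a b c : V) : ℤ := ∑ x, A a x * A b x * A c x

lemma cube {ι : Type} [Fintype ι] (K : ι → V → ℤ) :
    ∑ a, ∑ b, ∑ c, ∑ s, K s a * K s b * K s c = ∑ s, (∑ t, K s t) ^ 3 := by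
  have h1 : ∀ s, (∑ t, K s t) ^ 3 = ∑ a, ∑ b, ∑ c, K s a * K s b * K s c := by
    intro s
    simp only [← mul_sum, ← sum_mul]
    ring
  calc ∑ a, ∑ b, ∑ c, ∑ s, K s a * K s b * K s c
      = ∑ a, ∑ b, ∑ s, ∑ c, K s a * K s b * K s c :=
        sum_congr rfl fun a _ => sum_congr rfl fun b _ => sum_comm
    _ = ∑ a, ∑ s, ∑ b, ∑ c, K s a * K s b * K s c := sum_congr rfl fun a _ => sum_comm
    _ = ∑ s, ∑ a, ∑ b, ∑ c, K s a * K s b * K s c := sum_comm
    _ = ∑ s, (∑ t, K s t) ^ 3 := sum_congr rfl fun s _ => (h1 s).symm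

lemma sum_F2 (A : V → V → ℤ) : ∑ a, ∑ b, ∑ c, (d3 A a b c) ^ 2 =
    ∑ x, ∑ y, (∑ t, A x t * A y t) ^ 3 := by
  have h1 : ∀ a b c, (d3 A a b c) ^ 2 = ∑ s : V × V, (A s.1 a * A s.2 a) * (A s.1 b * A s.2 b) *
      (A s.1 c * A s.2 c) := by
    intro a b c
    unfold d3
    rw [sq, sum_mul_sum, ← Fintype.sum_prod_type']
    refine sum_congr rfl fun s _ => ?_
    ring
  simp only [h1]
  rw [cube (fun (s : V × V) t => A s.1 t * A s.2 t), Fintype.sum_prod_type]

lemma sum_FN (A : V → V → ℤ) : ∑ a, ∑ b, ∑ c, d3 A a b c * n3 A a b c =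
    ∑ x, ∑ y, (∑ t, A x t * A t y) ^ 3 := by
  have h1 : ∀ a b c, d3 A a b c * n3 A a b c = ∑ s : V × V, (A s.1 a * A a s.2) *
      (A s.1 b * A b s.2) * (A s.1 c * A c s.2) := by
    intro a b c
    unfold d3 n3
    rw [sum_mul_sum, ← Fintype.sum_prod_type']
    refine sum_congr rfl fun s _ => ?_
    ring
  simp only [h1]
  rw [cube (fun (s : V × V) t => A s.1 t * A t s.2), Fintype.sum_prod_type]

/-- the sums of `F^3` and of `N^3` agree -/
lemma sum_F3 (A : V → V → ℤ) : ∑ a, ∑ b, ∑ c, (d3 A a b c) ^ 3 =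
    ∑ a, ∑ b, ∑ c, (n3 A a b c) ^ 3 := by
  have h1 : ∀ a b c, (d3 A a b c) ^ 3 = ∑ s : V × V × V, (A s.1 a * A s.2.1 a * A s.2.2 a) *
      (A s.1 b * A s.2.1 b * A s.2.2 b) * (A s.1 c * A s.2.1 c * A s.2.2 c) := by
    intro a b c
    unfold d3
    have h2 : ∀ f : V → ℤ, (∑ x, f x) ^ 3 = ∑ s : V × V × V, f s.1 * f s.2.1 * f s.2.2 := by
      intro f
      rw [Fintype.sum_prod_type]
      simp only [Fintype.sum_prod_type, ← mul_sum, ← sum_mul]
      ring
    rw [h2]
    refine sum_congr rfl fun s _ => ?_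
    ring
  simp only [h1]
  rw [cube (fun (s : V × V × V) t => A s.1 t * A s.2.1 t * A s.2.2 t), Fintype.sum_prod_type]
  simp only [Fintype.sum_prod_type]
  rfl

lemma sum_F (A : V → V → ℤ) : ∑ a, ∑ b, ∑ c, d3 A a b c = ∑ x, (∑ t, A x t) ^ 3 :=
  cube A

lemma sum_N (A : V → V → ℤ) : ∑ a, ∑ b, ∑ c, n3 A a b c = ∑ x, (∑ t, A t x) ^ 3 :=
  cube (fun s t => A t s)

section final

variable (hA : Tn A) (hL : 4 ≤ L) (hT : T3 A L) (hV : (Fintype.card V : ℤ) = 8 * L + 11)
include hA hL hT hV

lemma out25 (x : V) : ∑ t, A x t = 4 * L + 5 := by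
  rw [out_eq hA hV, regular hA hL hT hV]
  ring

lemma out12 {a b : V} (hab : a ≠ b) : ∑ x, A a x * A b x = 2 * L + 2 := by
  have h1 : ∀ x, A a x * A b x = 1 - A x a - A x b + A x a * A x b -
      (if x = a then A b a else 0) - (if x = b then A a b else 0) := by
    intro x
    by_cases hxa : x = a
    · subst hxa
      rw [if_pos rfl, if_neg hab, hA.irr]
      have := hA.tot x b hab
      linarith
    by_cases hxb : x = b
    · subst hxb
      rw [if_pos rfl, if_neg hxa, hA.irr]
      have := hA.tot x a hxa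
      linarith
    rw [if_neg hxa, if_neg hxb]
    have h2 := hA.tot a x (Ne.symm hxa)
    have h3 := hA.tot b x (Ne.symm hxb)
    have h4 : A a x = 1 - A x a := by linarith
    have h5 : A b x = 1 - A x b := by linarith
    rw [h4, h5]
    ring
  have h2 : ∑ x, A x a = 4 * L + 5 := regular hA hL hT hV a
  have h3 : ∑ x, A x b = 4 * L + 5 := regular hA hL hT hV b
  have h4 : ∑ x, A x a * A x b = 2 * L + 2 := doubly hA hL hT hV hab
  simp only [h1, sum_sub_distrib, sum_add_distrib, sum_ite_eq', mem_univ, if_true, h2, h3, h4]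
  rw [sum_one, hV]
  have := hA.tot a b hab
  linarith

lemma path (x y : V) : ∑ t, A x t * A t y = if x = y then 0 else 2 * L + 3 - A x y := by
  split_ifs with h
  · subst h
    refine sum_eq_zero fun t _ => ?_
    by_cases ht : x = t
    · subst ht
      rw [hA.irr]
      ring
    · have h1 := hA.tot x t ht
      rcases hA.zo x t with h2 | h2
      · rw [h2]
        ring
      · rw [h2] at h1
        have h3 : A t x = 0 := by linarith
        rw [h3]
        ring
  · have h1 : ∀ t, A x t * A t y = A x t - A x t * A y t - (if t = y then A x y else 0) := by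
      intro t
      by_cases ht : t = y
      · subst ht
        rw [if_pos rfl, hA.irr]
        ring
      · rw [if_neg ht]
        have h2 := hA.tot t y ht
        have h3 : A t y = 1 - A y t := by linarith
        rw [h3]
        ring
    simp only [h1, sum_sub_distrib, sum_ite_eq', mem_univ, if_true]
    rw [out25 hA hL hT hV, out12 hA hL hT hV h]
    ring

/-- for a triple `F + N` is `2 L + 2` minus the number of sinks -/
lemma F_add_N {a b c : V} (hab : a ≠ b) (hac : a ≠ c) (hbc : b ≠ c) :
    d3 A a b c + n3 A a b c = 2 * L + 2 - (A b a * A c a + A a b * A c b + A a c * A b c) := by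
  have h1 : ∀ x, A a x * A b x * A c x = 1 - A x a - A x b - A x c + A x a * A x b +
      A x a * A x c + A x b * A x c - A x a * A x b * A x c -
      (if x = a then A b a * A c a else 0) - (if x = b then A a b * A c b else 0) -
      (if x = c then A a c * A b c else 0) := by
    intro x
    by_cases hxa : x = a
    · subst hxa
      rw [if_pos rfl, if_neg hab, if_neg hac, hA.irr]
      have h2 := hA.tot x b hab
      have h3 := hA.tot x c hac
      have h4 : A b x = 1 - A x b := by linarith
      have h5 : A c x = 1 - A x c := by linarith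
      rw [h4, h5]
      ring
    by_cases hxb : x = b
    · subst hxb
      rw [if_pos rfl, if_neg hxa, if_neg hbc, hA.irr]
      have h2 := hA.tot x a hxa
      have h3 := hA.tot x c hbc
      have h4 : A a x = 1 - A x a := by linarith
      have h5 : A c x = 1 - A x c := by linarith
      rw [h4, h5]
      ring
    by_cases hxc : x = c
    · subst hxc
      rw [if_pos rfl, if_neg hxa, if_neg hxb, hA.irr]
      have h2 := hA.tot x a hxa
      have h3 := hA.tot x b hxb
      have h4 : A a x = 1 - A x a := by linarith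
      have h5 : A b x = 1 - A x b := by linarith
      rw [h4, h5]
      ring
    rw [if_neg hxa, if_neg hxb, if_neg hxc]
    have h2 := hA.tot a x (Ne.symm hxa)
    have h3 := hA.tot b x (Ne.symm hxb)
    have h3' := hA.tot c x (Ne.symm hxc)
    have h4 : A a x = 1 - A x a := by linarith
    have h5 : A b x = 1 - A x b := by linarith
    have h6 : A c x = 1 - A x c := by linarith
    rw [h4, h5, h6]
    ring
  have h2 : ∑ x, A x a = 4 * L + 5 := regular hA hL hT hV a
  have h3 : ∑ x, A x b = 4 * L + 5 := regular hA hL hT hV b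
  have h3' : ∑ x, A x c = 4 * L + 5 := regular hA hL hT hV c
  have h4 : ∑ x, A x a * A x b = 2 * L + 2 := doubly hA hL hT hV hab
  have h4' : ∑ x, A x a * A x c = 2 * L + 2 := doubly hA hL hT hV hac
  have h4'' : ∑ x, A x b * A x c = 2 * L + 2 := doubly hA hL hT hV hbc
  unfold n3
  simp only [h1, sum_sub_distrib, sum_add_distrib, sum_ite_eq', mem_univ, if_true, h2, h3, h3', h4,
    h4', h4'']
  rw [sum_one, hV]
  unfold d3
  ring

lemma sinks {a b c : V} (hab : a ≠ b) (hac : a ≠ c) (hbc : b ≠ c) :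
    A b a * A c a + A a b * A c b + A a c * A b c = 0 ∨
    A b a * A c a + A a b * A c b + A a c * A b c = 1 := by
  have h1 := hA.tot a b hab
  have h2 := hA.tot a c hac
  have h3 := hA.tot b c hbc
  have h1' : A b a = 1 - A a b := by linarith
  have h2' : A c a = 1 - A a c := by linarith
  have h3' : A c b = 1 - A b c := by linarith
  rw [h1', h2', h3']
  rcases hA.zo a b with h | h <;> rcases hA.zo a c with h' | h' <;>
    rcases hA.zo b c with h'' | h'' <;> simp [h, h', h'']

lemma pointwise (a b c : V) :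
    -(12 * L ^ 3 + 39 * L ^ 2 + 36 * L + 6) *
        ((if a = b then 1 else 0) + (if a = c then 1 else 0) + (if b = c then 1 else 0)) -
      (72 * L ^ 3 + 270 * L ^ 2 + 324 * L + 123) *
        ((if a = b then 1 else 0) * (if b = c then 1 else 0)) ≤
    (d3 A a b c) ^ 3 - (n3 A a b c) ^ 3 - (6 * L + 6) * (d3 A a b c) ^ 2 -
      (6 * L + 3) * (d3 A a b c * n3 A a b c) + (15 * L ^ 2 + 24 * L + 11) * d3 A a b c +
      (9 * L ^ 2 + 12 * L + 7) * n3 A a b c - (12 * L ^ 3 + 27 * L ^ 2 + 24 * L + 6) := by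
  have hF2 : ∀ x y, d3 A x x y = d2 A x y := by
    intro x y
    unfold d3 d2
    exact sum_congr rfl fun t _ => by rw [hA.sq]
  have hN1 : ∀ x y, n3 A x x y = ∑ t, A x t * A y t := by
    intro x y
    unfold n3
    exact sum_congr rfl fun t _ => by rw [hA.sq]
  have hN2 : ∀ x y, n3 A x y x = ∑ t, A x t * A y t := by
    intro x y
    unfold n3
    refine sum_congr rfl fun t _ => ?_
    rcases hA.zo x t with h | h <;> rw [h] <;> ring
  have hN3 : ∀ x y, n3 A y x x = ∑ t, A x t * A y t := by
    intro x y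
    unfold n3
    refine sum_congr rfl fun t _ => ?_
    rcases hA.zo x t with h | h <;> rw [h] <;> ring
  have hout : ∀ x, ∑ t, A x t * A x t = 4 * L + 5 := by
    intro x
    rw [← out25 hA hL hT hV x]
    exact sum_congr rfl fun t _ => hA.sq x t
  by_cases hab : a = b
  · subst hab
    by_cases hac : a = c
    · subst hac
      rw [hF2, d2_self hA, hN1, hout, regular hA hL hT hV]
      simp only [if_true]
      apply le_of_eq
      ring
    · rw [if_pos rfl, if_neg hac, hF2, hN1, doubly hA hL hT hV hac, out12 hA hL hT hV hac]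
      apply le_of_eq
      ring
  by_cases hac : a = c
  · subst hac
    rw [if_neg hab, if_pos rfl, if_neg (Ne.symm hab), d3_left hA, hN2, doubly hA hL hT hV hab,
      out12 hA hL hT hV hab]
    apply le_of_eq
    ring
  by_cases hbc : b = c
  · subst hbc
    rw [if_neg hab, if_pos rfl, d3_right hA, hN3, doubly hA hL hT hV hab,
      out12 hA hL hT hV (Ne.symm hab)]
    apply le_of_eq
    ring
  rw [if_neg hab, if_neg hac, if_neg hbc]
  have h1 := F_add_N hA hL hT hV hab hac hbc
  have h5 := hT a b c hab hac hbc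
  generalize d3 A a b c = F at *
  generalize n3 A a b c = N at *
  obtain ⟨q, rfl⟩ : ∃ q, F = L + q := ⟨F - L, by ring⟩
  have hq : 0 ≤ q := by linarith
  rcases sinks hA hL hT hV hab hac hbc with h2 | h2
  · rw [h2] at h1
    have h3 : N = L + 2 - q := by linarith
    subst h3
    have h4 : 0 ≤ q * (q - 2) * (2 * q - 5) := by
      rcases lt_or_ge q 3 with h6 | h6
      · have : q = 0 ∨ q = 1 ∨ q = 2 := by omega
        rcases this with rfl | rfl | rfl <;> norm_num
      · have h8 : 0 ≤ q - 2 := by linarith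
        have h9 : 0 ≤ 2 * q - 5 := by linarith
        positivity
    have h6 : (L + q) ^ 3 - (L + 2 - q) ^ 3 - (6 * L + 6) * (L + q) ^ 2 -
        (6 * L + 3) * ((L + q) * (L + 2 - q)) + (15 * L ^ 2 + 24 * L + 11) * (L + q) +
        (9 * L ^ 2 + 12 * L + 7) * (L + 2 - q) - (12 * L ^ 3 + 27 * L ^ 2 + 24 * L + 6) =
        q * (q - 2) * (2 * q - 5) := by ring
    rw [h6]
    linarith
  · rw [h2] at h1
    have h3 : N = L + 1 - q := by linarith
    subst h3
    have h4 : 0 ≤ q * (q - 1) * (q - 2) := by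
      rcases lt_or_ge q 3 with h6 | h6
      · have : q = 0 ∨ q = 1 ∨ q = 2 := by omega
        rcases this with rfl | rfl | rfl <;> norm_num
      · have h8 : 0 ≤ q - 1 := by linarith
        have h9 : 0 ≤ q - 2 := by linarith
        positivity
    have h6 : (L + q) ^ 3 - (L + 1 - q) ^ 3 - (6 * L + 6) * (L + q) ^ 2 -
        (6 * L + 3) * ((L + q) * (L + 1 - q)) + (15 * L ^ 2 + 24 * L + 11) * (L + q) +
        (9 * L ^ 2 + 12 * L + 7) * (L + 1 - q) - (12 * L ^ 3 + 27 * L ^ 2 + 24 * L + 6) =
        2 * (q * (q - 1) * (q - 2)) := by ring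
    rw [h6]
    linarith

/-- no tournament on `8 L + 11` vertices has at least `L` common dominators for every triple -/
theorem noL : False := by
  -- sums over all triples
  have s1 : ∑ a, ∑ b, ∑ c, d3 A a b c = (8 * L + 11) * (4 * L + 5) ^ 3 := by
    rw [sum_F]
    simp only [out25 hA hL hT hV]
    rw [sum_cst, hV]
  have s2 : ∑ a, ∑ b, ∑ c, n3 A a b c = (8 * L + 11) * (4 * L + 5) ^ 3 := by
    rw [sum_N]
    have h : ∀ x, ∑ t, A t x = 4 * L + 5 := regular hA hL hT hV
    simp only [h]
    rw [sum_cst, hV]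
  have s3 : ∑ a, ∑ b, ∑ c, (d3 A a b c) ^ 2 = (8 * L + 11) * ((8 * L + 11) * (2 * L + 2) ^ 3) +
      (8 * L + 11) * ((4 * L + 5) ^ 3 - (2 * L + 2) ^ 3) := by
    rw [sum_F2]
    have h : ∀ x y, (∑ t, A x t * A y t) ^ 3 = (2 * L + 2) ^ 3 +
        (if x = y then (4 * L + 5) ^ 3 - (2 * L + 2) ^ 3 else 0) := by
      intro x y
      by_cases hxy : x = y
      · subst hxy
        have h1 : ∑ t, A x t * A x t = 4 * L + 5 := by
          rw [← out25 hA hL hT hV x]
          exact sum_congr rfl fun t _ => hA.sq x t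
        rw [h1, if_pos rfl]
        ring
      · rw [out12 hA hL hT hV hxy, if_neg hxy]
        ring
    simp only [h, sum_add_distrib, sum_ite_eq, mem_univ, if_true, sum_cst, hV]
  have s4 : ∑ a, ∑ b, ∑ c, d3 A a b c * n3 A a b c =
      (8 * L + 11) * ((8 * L + 11) * (2 * L + 3) ^ 3) -
      ((2 * L + 3) ^ 3 - (2 * L + 2) ^ 3) * ((8 * L + 11) * (4 * L + 5)) -
      (8 * L + 11) * (2 * L + 3) ^ 3 := by
    rw [sum_FN]
    have h : ∀ x y, (∑ t, A x t * A t y) ^ 3 = (2 * L + 3) ^ 3 -
        ((2 * L + 3) ^ 3 - (2 * L + 2) ^ 3) * A x y -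
        (if x = y then (2 * L + 3) ^ 3 else 0) := by
      intro x y
      rw [path hA hL hT hV]
      by_cases hxy : x = y
      · subst hxy
        rw [if_pos rfl, if_pos rfl, hA.irr]
        ring
      · rw [if_neg hxy, if_neg hxy]
        rcases hA.zo x y with h | h <;> rw [h] <;> ring
    simp only [h, sum_sub_distrib, sum_ite_eq, mem_univ, if_true, ← mul_sum, out25 hA hL hT hV,
      sum_cst, hV]
  have s5 := sum_F3 A
  -- sum of the lower bound
  have hsum : ∀ f g : V → V → V → ℤ, (∀ a b c, f a b c ≤ g a b c) →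
      ∑ a, ∑ b, ∑ c, f a b c ≤ ∑ a, ∑ b, ∑ c, g a b c := fun f g h =>
    sum_le_sum fun a _ => sum_le_sum fun b _ => sum_le_sum fun c _ => h a b c
  have h1 := hsum _ _ (pointwise hA hL hT hV)
  have t1 : ∑ a : V, ∑ b : V, ∑ _c : V, (if a = b then (1 : ℤ) else 0) =
      (8 * L + 11) * (8 * L + 11) := by
    simp only [sum_cst, ← mul_sum, sum_ite_eq, mem_univ, if_true, hV]
    ring
  have t2 : ∑ a : V, ∑ _b : V, ∑ c : V, (if a = c then (1 : ℤ) else 0) =
      (8 * L + 11) * (8 * L + 11) := by
    simp only [sum_ite_eq, mem_univ, if_true, sum_cst, hV]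
    ring
  have t3 : ∑ _a : V, ∑ b : V, ∑ c : V, (if b = c then (1 : ℤ) else 0) =
      (8 * L + 11) * (8 * L + 11) := by
    simp only [sum_ite_eq, mem_univ, if_true, sum_cst, hV]
    ring
  have t4 : ∑ a : V, ∑ b : V, ((if a = b then (1 : ℤ) else 0) *
      ∑ c : V, (if b = c then (1 : ℤ) else 0)) = 8 * L + 11 := by
    simp only [sum_ite_eq, mem_univ, if_true, mul_one, sum_cst, hV]
  simp only [sum_sub_distrib, sum_add_distrib, ← mul_sum] at h1
  rw [s1, s2, s3, s4, s5, t1, t2, t3, t4] at h1
  simp only [sum_cst, hV] at h1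
  obtain ⟨x, rfl⟩ : ∃ x, L = x + 4 := ⟨L - 4, by ring⟩
  have hx : 0 ≤ x := by linarith
  have hp : 0 ≤ x ^ 2 := by positivity
  have hp3 : 0 ≤ x ^ 3 := by positivity
  have hp4 : 0 ≤ x ^ 4 := by positivity
  ring_nf at h1
  linarith

end final


end core

end Pool.Agent.Helper15.FTL
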