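import Pool.Agent.Helper15.FT.Core

/-!
# A tournament with property `S_4` has at least 52 vertices

So `m(4) ≥ 52`, and the value `2^k (k - 1) + 3 = 51` proposed by Szekeres and Szekeres is wrong for
`k = 4`.  The main part of the proof is in `Pool.Agent.Helper15.FT.Core`: a tournament on 51 vertices
has a triple of vertices with at most four common dominators.
-/

namespace Pool.Agent.Results.MP_806e0d_co.FiftyTwo

open Finset Pool.Agent.Helper15.FT

/-- `dom` is the arc relation of a tournament: there are no loops, and for any two distinct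
vertices exactly one of the two arcs is present. -/
structure IsTournament {V : Type*} (dom : V → V → Prop) : Prop where
  irrefl : ∀ v, ¬ dom v v
  exactly_one : ∀ u v, u ≠ v → (dom u v ↔ ¬ dom v u)

/-- Property `S_k`: every set of exactly `k` vertices is dominated by some vertex. -/
def PropertyS {V : Type*} (dom : V → V → Prop) (k : ℕ) : Prop :=
  ∀ S : Finset V, S.card = k → ∃ x, ∀ s ∈ S, dom x s

/-! ### from property `S_4` to the matrix -/

section wrap

variable {V : Type} [Fintype V] {dom : V → V → Prop}

/-- property `S_4` gives five common dominators for every triple -/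
lemma five (hT : IsTournament dom) (hV : 4 ≤ Fintype.card V) (hS : PropertyS dom 4)
    [DecidableEq V] [DecidablePred fun x : V × V => dom x.1 x.2] {a b c : V} (hab : a ≠ b)
    (hac : a ≠ c) (hbc : b ≠ c) (D : Finset V)
    (hD : ∀ x, x ∈ D ↔ dom x a ∧ dom x b ∧ dom x c) : 5 ≤ D.card := by
  by_contra hcon
  push Not at hcon
  have h4 : D.card ≤ 4 := by omega
  obtain ⟨S, hDS, hSc⟩ := exists_superset_card_eq h4 hV
  obtain ⟨x, hx⟩ := hS S hSc
  have hanti : ∀ u v, dom u v → ¬ dom v u := by
    intro u v huv
    have hne : u ≠ v := by
      rintro rfl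
      exact hT.irrefl _ huv
    exact (hT.exactly_one u v hne).1 huv
  -- every set of at most four vertices is dominated
  have hdom : ∀ R : Finset V, R.card ≤ 4 → ∃ y, ∀ s ∈ R, dom y s := by
    intro R hR
    obtain ⟨S', h1, h2⟩ := exists_superset_card_eq hR hV
    obtain ⟨y, hy⟩ := hS S' h2
    exact ⟨y, fun s hs => hy s (h1 hs)⟩
  have hcard3 : ({a, b, c} : Finset V).card ≤ 3 := card_le_three
  obtain ⟨y0, hy0⟩ := hdom {a, b, c} (by omega)
  have hy0D : y0 ∈ D := (hD y0).2 ⟨hy0 a (by simp), hy0 b (by simp), hy0 c (by simp)⟩
  have hxy0 := hx y0 (hDS hy0D)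
  obtain ⟨y, hy⟩ := hdom (insert x {a, b, c}) (by
    have := card_insert_le x ({a, b, c} : Finset V)
    omega)
  have hyD : y ∈ D := (hD y).2 ⟨hy a (by simp), hy b (by simp), hy c (by simp)⟩
  exact hanti _ _ (hx y (hDS hyD)) (hy x (by simp))

end wrap

/-- a tournament with property `S_4` on 51 vertices does not exist -/
lemma not51 {V : Type} [Fintype V] {dom : V → V → Prop} (hT : IsTournament dom)
    (hV : Fintype.card V = 51) (hS : PropertyS dom 4) : False := by
  classical
  let A : V → V → ℤ := fun x y => if dom x y then 1 else 0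
  have hA : Tn A := by
    refine ⟨fun x y => ?_, fun x => ?_, fun x y hxy => ?_⟩
    · change (if dom x y then (1 : ℤ) else 0) = 0 ∨ (if dom x y then (1 : ℤ) else 0) = 1
      split_ifs
      · exact Or.inr rfl
      · exact Or.inl rfl
    · exact if_neg (hT.irrefl x)
    · change (if dom x y then (1 : ℤ) else 0) + (if dom y x then (1 : ℤ) else 0) = 1
      have h := hT.exactly_one x y hxy
      by_cases h1 : dom x y
      · rw [if_pos h1, if_neg (h.1 h1)]
        norm_num
      · have h2 : dom y x := by
          by_contra h3
          exact h1 (h.2 h3)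
        rw [if_neg h1, if_pos h2]
        norm_num
  have hT3 : T3 A := by
    intro a b c hab hac hbc
    have h1 : d3 A a b c = ((univ.filter fun x => dom x a ∧ dom x b ∧ dom x c).card : ℤ) := by
      unfold d3
      rw [card_filter]
      push_cast
      refine sum_congr rfl fun x _ => ?_
      change (if dom x a then (1 : ℤ) else 0) * (if dom x b then (1 : ℤ) else 0) *
        (if dom x c then (1 : ℤ) else 0) = _
      by_cases h1 : dom x a <;> by_cases h2 : dom x b <;> by_cases h3 : dom x c <;>
        simp [h1, h2, h3]
    rw [h1]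
    have h2 := five hT (by omega) hS hab hac hbc (univ.filter fun x => dom x a ∧ dom x b ∧ dom x c)
      (fun x => by simp)
    exact_mod_cast h2
  exact no51 hA hT3 hV

/-- adding vertices which are dominated by all the old vertices -/
def ext {V : Type} (dom : V → V → Prop) (m : ℕ) : V ⊕ Fin m → V ⊕ Fin m → Prop
  | .inl u, .inl v => dom u v
  | .inl _, .inr _ => True
  | .inr _, .inl _ => False
  | .inr s, .inr t => s < t

lemma ext_tournament {V : Type} {dom : V → V → Prop} (hT : IsTournament dom) (m : ℕ) :
    IsTournament (ext dom m) := by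
  refine ⟨?_, ?_⟩
  · rintro (v | v)
    · exact hT.irrefl v
    · exact lt_irrefl v
  · rintro (u | u) (v | v) huv
    · exact hT.exactly_one u v (fun h => huv (by rw [h]))
    · exact ⟨fun _ h => h, fun _ => trivial⟩
    · exact ⟨fun h => h.elim, fun h => (h trivial).elim⟩
    · change u < v ↔ ¬ v < u
      have hne : u ≠ v := fun h => huv (by rw [h])
      constructor
      · intro h
        exact not_lt.2 h.le
      · intro h
        exact lt_of_le_of_ne (not_lt.1 h) hne

lemma ext_property {V : Type} [Fintype V] {dom : V → V → Prop} (hV : 4 ≤ Fintype.card V)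
    (hS : PropertyS dom 4) (m : ℕ) : PropertyS (ext dom m) 4 := by
  classical
  intro S hSc
  let R : Finset V := univ.filter fun v => Sum.inl v ∈ S
  have hR : R.card ≤ 4 := by
    rw [← hSc]
    refine card_le_card_of_injOn Sum.inl ?_ ?_
    · intro v hv
      have := (mem_filter.1 hv).2
      exact this
    · intro u _ v _ h
      exact Sum.inl_injective h
  obtain ⟨S', h1, h2⟩ := exists_superset_card_eq hR hV
  obtain ⟨y, hy⟩ := hS S' h2
  refine ⟨Sum.inl y, ?_⟩
  rintro (v | v) hv
  · exact hy v (h1 (mem_filter.2 ⟨mem_univ _, hv⟩))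
  · exact trivial

/-- A tournament with at least four vertices in which every set of four vertices is dominated by a
vertex has at least 52 vertices. -/
theorem result {V : Type} [Fintype V] (dom : V → V → Prop) (hT : IsTournament dom)
    (hV : 4 ≤ Fintype.card V) (hS : PropertyS dom 4) : 52 ≤ Fintype.card V := by
  by_contra hcon
  push Not at hcon
  have h1 : Fintype.card (V ⊕ Fin (51 - Fintype.card V)) = 51 := by
    rw [Fintype.card_sum, Fintype.card_fin]
    omega
  exact not51 (ext_tournament hT _) h1 (ext_property hV hS _)

end Pool.Agent.Results.MP_806e0d_co.FiftyTwo
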